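import Pool.Agent.MP_0e6a9f_ag.H19.Spec

/-! The Kodaira-Spencer datum attached to a lift of the differential. -/

set_option backward.isDefEq.respectTransparency false

open MulOpposite

noncomputable section
namespace FMD
open _root_.FMD.DGR _root_.FMD.Bimod

namespace Ks
variable {K : Type} [Field K] {A : DGR} [Algebra K A.B] [A.KL K] (D : Derivation ℤ K K)
  (q : Tw (env K A A))

/-- Rows over the square zero extension. -/
def RowS : Submodule (Et A D) (q.I → Et A D) where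
  carrier := {x | ∀ i, x i * Et.e A D (q.ob i) = x i}
  add_mem' ha hb i := by rw [Pi.add_apply, add_mul, ha i, hb i]
  zero_mem' _ := zero_mul _
  smul_mem' c x hx i := by rw [Pi.smul_apply, smul_eq_mul, mul_assoc, hx i]

/-- The same as a type with two actions. -/
def RE : Type := RowS D q

instance : AddCommGroup (RE D q) := inferInstanceAs (AddCommGroup (RowS D q))
instance : Module (Et A D) (RE D q) := inferInstanceAs (Module (Et A D) (RowS D q))
instance : Module A.B (RE D q) := Module.compHom _ (Et.L A D)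
instance : Module A.Bᵐᵒᵖ (RE D q) := Module.compHom _ (Et.R A D)

instance : SMulCommClass A.B A.Bᵐᵒᵖ (RE D q) := ⟨fun a b m => by
  change Et.L A D a • Et.R A D b • m = Et.R A D b • Et.L A D a • m
  rw [smul_smul, smul_smul, (Et.commute a b).eq]⟩

/-- The coordinates. -/
def vl : RE D q →ₗ[Et A D] (q.I → Et A D) := (RowS D q).subtype

variable {D q}

lemma ext {u v : RE D q} (h : ∀ i, vl D q u i = vl D q v i) : u = v := Subtype.ext (funext h)

lemma vl_e (v : RE D q) (i) : vl D q v i * Et.e A D (q.ob i) = vl D q v i := v.2 i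

lemma vl_smul (c : Et A D) (v : RE D q) (i) : vl D q (c • v) i = c * vl D q v i := rfl

lemma two (v : RE D q) : v + v = 0 := ext fun _ => Et.two _

variable (D q)

/-- Reduction modulo `ε`. -/
def pr : RE D q →+ (Fr q).H :=
  AddMonoidHom.mk' (fun x => ⟨fun i => Et.pr A D (vl D q x i), fun i => by
    rw [← Et.pr_e (D := D), ← map_mul, vl_e]⟩) fun a b => Fr.ext fun _ => map_add (Et.pr A D) _ _

/-- Multiplication by `ε`. -/
def ep : (Fr q).H →+ RE D q :=
  AddMonoidHom.mk' (fun y => ⟨fun i => Et.eps A D (Fr.val q y i), fun i => by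
    rw [Et.eps_mul, Et.pr_e, Fr.val_e]⟩) fun a b => ext fun i => by
      change Et.eps A D (Fr.val q (a + b) i) = _
      rw [map_add, Pi.add_apply, map_add]
      rfl

variable {D q}

lemma val_pr (x : RE D q) (i) : Fr.val q (pr D q x) i = Et.pr A D (vl D q x i) := rfl

lemma vl_ep (y : (Fr q).H) (i) : vl D q (ep D q y) i = Et.eps A D (Fr.val q y i) := rfl

lemma pr_smul (c : Et A D) (x : RE D q) :
    pr D q (c • x) = (Fr q).act K (Et.pr A D c) (pr D q x) := Fr.ext fun i => by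
  rw [val_pr, vl_smul, map_mul, Fr.val_act, val_pr]

lemma smul_ep (c : Et A D) (y : (Fr q).H) :
    c • ep D q y = ep D q ((Fr q).act K (Et.pr A D c) y) := ext fun i => by
  rw [vl_smul, vl_ep, vl_ep, Et.mul_eps, Fr.val_act]

lemma eps_smul (c : (env K A A).B) (x : RE D q) :
    Et.eps A D c • x = ep D q ((Fr q).act K c (pr D q x)) := ext fun i => by
  rw [vl_smul, vl_ep, Et.eps_mul, Fr.val_act, val_pr]

lemma pr_l (b : A.B) (x : RE D q) : pr D q (b • x) = b • pr D q x :=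
  (pr_smul (Et.L A D b) x).trans (by rw [Et.pr_L, act_tm, one_smul])

lemma pr_r (b : A.Bᵐᵒᵖ) (x : RE D q) : pr D q (b • x) = b • pr D q x :=
  (pr_smul (Et.R A D b) x).trans (by rw [Et.pr_R, act_tm, one_smul])

lemma ep_l (b : A.B) (y : (Fr q).H) : ep D q (b • y) = b • ep D q y :=
  ((smul_ep (Et.L A D b) y).trans (by rw [Et.pr_L, act_tm, one_smul])).symm

lemma ep_r (b : A.Bᵐᵒᵖ) (y : (Fr q).H) : ep D q (b • y) = b • ep D q y :=
  ((smul_ep (Et.R A D b) y).trans (by rw [Et.pr_R, act_tm, one_smul])).symm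

lemma pr_ep (y : (Fr q).H) : pr D q (ep D q y) = 0 := Fr.ext fun _ => Et.pr_eps _

lemma ep_eq_zero {y : (Fr q).H} (h : ep D q y = 0) : y = 0 := Fr.ext fun i =>
  Et.eps_injective (D := D) ((congrArg (vl D q · i) h).trans (map_zero _).symm)

/-- Rows supported on the generators of degree `n`. -/
def gr (n : ℤ) : AddSubgroup (RE D q) where
  carrier := {x | ∀ i, q.deg i ≠ n → vl D q x i = 0}
  add_mem' ha hb i h := by rw [map_add, Pi.add_apply, ha i h, hb i h, add_zero]
  zero_mem' _ _ := rfl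
  neg_mem' ha i h := by rw [map_neg, Pi.neg_apply, ha i h, neg_zero]

lemma smul_mem (c : Et A D) {n : ℤ} {x : RE D q} (h : x ∈ gr n) : c • x ∈ gr n :=
  fun i hi => by rw [vl_smul, h i hi, mul_zero]

variable (hA : Deg0 A) {κ : q.I → (Fr q).H} (l : Lift D q κ)

/-- The lifted differential on rows. -/
def dt : RE D q →ₗ[Et A D] RE D q where
  toFun x := ⟨fun j => ∑ i, vl D q x i * l.δ i j, fun j => by
    simp only [Finset.sum_mul, mul_assoc, l.r]⟩
  map_add' a b := ext fun j => by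
    change ∑ i, vl D q (a + b) i * l.δ i j = ∑ i, vl D q a i * l.δ i j + ∑ i, vl D q b i * l.δ i j
    simp [add_mul, Finset.sum_add_distrib]
  map_smul' c a := ext fun j => by
    change ∑ i, c * vl D q a i * l.δ i j = c * ∑ i, vl D q a i * l.δ i j
    simp [Finset.mul_sum, mul_assoc]

lemma vl_dt (x : RE D q) (j) : vl D q (dt l x) j = ∑ i, vl D q x i * l.δ i j := rfl

lemma dt_mem {n : ℤ} {x : RE D q} (h : x ∈ gr n) : dt l x ∈ gr (n + 1) := fun j hj =>
  Finset.sum_eq_zero fun i _ => by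
    by_cases hi : q.deg i = n
    · rw [l.deg i j (hi ▸ hj), mul_zero]
    · rw [h i hi, zero_mul]

lemma dt_dt (x : RE D q) : dt l (dt l x) = ep D q (lift q (Fr q) κ (pr D q x)) := ext fun j => by
  have h (i) : ∑ k, l.δ i k * l.δ k j = Et.eps A D (Fr.mat κ i j) := congrFun (congrFun l.sq i) j
  simp only [vl_dt, vl_ep, Fr.val_lift, map_sum, val_pr, ← Et.mul_eps, ← h, Finset.sum_mul,
    Finset.mul_sum, mul_assoc]
  exact Finset.sum_comm

include hA

lemma mem_iff {n : ℤ} {y : (Fr q).H} : y ∈ (Fr q).gr n ↔ ∀ i, q.deg i ≠ n → Fr.val q y i = 0 :=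
  ⟨fun h i hi => (hA.tens hA.op).zero (h i) (by omega), fun h => Fr.mem_gr.2 fun i => by
    by_cases hi : q.deg i = n
    · rw [hi, sub_self]; exact (hA.tens hA.op).mem _
    · rw [h i hi]; exact zero_mem _⟩

lemma pr_mem {n : ℤ} {x : RE D q} (h : x ∈ gr n) : pr D q x ∈ (Fr q).gr n :=
  (mem_iff hA).2 fun i hi => by rw [val_pr, h i hi, map_zero]

lemma ep_mem {n : ℤ} {y : (Fr q).H} : ep D q y ∈ gr n ↔ y ∈ (Fr q).gr n :=
  ⟨fun h => (mem_iff hA).2 fun i hi => Et.eps_injective (D := D) ((h i hi).trans (map_zero _).symm),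
    fun h i hi => by rw [vl_ep, (mem_iff hA).1 h i hi, map_zero]⟩

lemma pr_dt (x : RE D q) : pr D q (dt l x) = (Fr q).d (pr D q x) := Fr.ext fun j => by
  simp only [val_pr, vl_dt, Fr.val_d, (hA.tens hA.op).d, map_sum, map_mul, l.pr, zero_add]

lemma dt_ep (y : (Fr q).H) : dt l (ep D q y) = ep D q ((Fr q).d y) := ext fun j => by
  simp only [vl_ep, vl_dt, Fr.val_d, (hA.tens hA.op).d, map_sum, Et.eps_mul, l.pr, zero_add]

lemma pr_surj {n : ℤ} {y : (Fr q).H} (h : y ∈ (Fr q).gr n) : ∃ x ∈ gr n, pr D q x = y := by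
  choose x hx using fun i => Et.pr_surjective (D := D) (Fr.val q y i)
  refine ⟨⟨fun i => if q.deg i = n then x i * Et.e A D (q.ob i) else 0, fun i => ?_⟩,
    fun i hi => if_neg hi, Fr.ext fun i => ?_⟩
  · dsimp only
    split_ifs
    · rw [mul_assoc, Et.e_mul_self]
    · exact zero_mul _
  · change Et.pr A D (if q.deg i = n then x i * Et.e A D (q.ob i) else 0) = _
    split_ifs with hi
    · rw [map_mul, hx, Et.pr_e, Fr.val_e]
    · rw [map_zero, (mem_iff hA).1 h i hi]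

omit hA in
lemma exists_ep {x : RE D q} (h : pr D q x = 0) : ∃ y, ep D q y = x := by
  choose y hy using fun i => Et.pr_eq_zero.1 (congrArg (Fr.val q · i) h)
  exact ⟨Fr.mk q y, ext fun i => by rw [vl_ep, Fr.val_mk, ← Et.pr_e (D := D), ← Et.eps_mul, hy, vl_e]⟩

include l in
lemma closed : bhD q (Fr q) κ = 0 := by
  refine Fr.mat_injective ((Fr.twD_mat κ).symm.trans ?_)
  have h : q.δ * Fr.mat κ = Fr.mat κ * q.δ := by
    ext i j
    have e := congrFun (congrFun (mul_assoc l.δ l.δ l.δ) i) j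
    rw [l.sq] at e
    refine Et.eps_injective (D := D) ?_
    simpa only [Matrix.mul_apply, Matrix.map_apply, Et.mul_eps, Et.eps_mul, l.pr, map_sum]
      using e.symm
  rw [self_twD, h, add_assoc, (env K A A).self.mat_two, add_zero]
  ext i j
  exact (hA.tens hA.op).d _

variable (hκ : κ ∈ bhGr q (Fr q) 2)

/-- The differential. -/
def dQ : RE D q × (Fr q).H →+ RE D q × (Fr q).H :=
  ((dt l).toAddMonoidHom.coprod (ep D q)).prod
    (((lift q (Fr q) κ).comp (pr D q)).coprod (Fr q).d)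

omit hA in
lemma dQ_apply (v : RE D q × (Fr q).H) :
    dQ l v = (dt l v.1 + ep D q v.2, lift q (Fr q) κ (pr D q v.1) + (Fr q).d v.2) := rfl

/-- The bimodule. -/
@[reducible] def Q : Bimod A A where
  H := RE D q × (Fr q).H
  gr n := (gr n).prod ((Fr q).gr (n + 1))
  d := dQ l
  d_mem h := ⟨add_mem (dt_mem l h.1) ((ep_mem hA).2 h.2),
    add_mem ((Fr q).mem_cast (lift_mem hκ (pr_mem hA h.1)) (by ring)) ((Fr q).d_mem h.2)⟩
  d_d v := by
    simp only [dQ_apply, map_add, dt_dt, dt_ep hA, pr_dt hA, pr_ep, d_lift, closed hA l, lift_zero,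
      (Fr q).d_d, add_zero, two, (Fr q).two]
    rfl
  l_mem {m n b v} hb h := ⟨by
    by_cases hm : m = 0
    · rw [hm, zero_add]; exact smul_mem (Et.L A D b) h.1
    · rw [hA.zero hb hm, zero_smul]; exact zero_mem _,
    (Fr q).mem_cast ((Fr q).l_mem hb h.2) (by ring)⟩
  r_mem {m n b v} hb h := ⟨by
    by_cases hm : m = 0
    · rw [hm, add_zero]; exact smul_mem (Et.R A D (op b)) h.1
    · rw [hA.zero hb hm, op_zero, zero_smul]; exact zero_mem _,
    (Fr q).mem_cast ((Fr q).r_mem hb h.2) (by ring)⟩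
  d_l b v := by
    have := (dt l).map_smul (Et.L A D b) v.1
    rw [hA.d, zero_smul, zero_add, dQ_apply, dQ_apply, Prod.smul_fst, Prod.smul_snd,
      Prod.smul_mk, smul_add, smul_add, ep_l, pr_l, (lift_isLin κ).l, (Fr q).d_l, hA.d, zero_smul,
      zero_add]
    exact congrArg (· + _, _) this
  d_r b v := by
    have := (dt l).map_smul (Et.R A D (op b)) v.1
    rw [hA.d, op_zero, zero_smul, add_zero, dQ_apply, dQ_apply, Prod.smul_fst, Prod.smul_snd,
      Prod.smul_mk, smul_add, smul_add, ep_r, pr_r, (lift_isLin κ).r, (Fr q).d_r, hA.d, op_zero,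
      zero_smul, add_zero]
    exact congrArg (· + _, _) this

/-- The projection. -/
def π : (Q hA l hκ).H →+ (Fr q).H := (pr D q).comp (AddMonoidHom.fst _ _)

lemma π_hom : IsHom (Q hA l hκ) (Fr q) (π hA l hκ) :=
  ⟨fun h => pr_mem hA h.1, fun v => by
    change _ = pr D q (dt l v.1 + ep D q v.2)
    rw [map_add, pr_dt hA, pr_ep, add_zero]; rfl, fun b v => pr_l b v.1, fun b v => pr_r (op b) v.1⟩

lemma ker_bd {n : ℤ} {v : (Q hA l hκ).H} (hv : v ∈ (Q hA l hκ).gr n) (h : π hA l hκ v = 0)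
    (h0 : (Q hA l hκ).d v = 0) :
    ∃ u ∈ (Q hA l hκ).gr (n - 1), π hA l hκ u = 0 ∧ (Q hA l hκ).d u = v := by
  obtain ⟨y, hy⟩ := exists_ep (x := v.1) h
  refine ⟨(0, y), ⟨zero_mem _, (Fr q).mem_cast ((ep_mem hA).1 (hy ▸ hv.1)) (by ring)⟩,
    map_zero (pr D q), Prod.ext ?_ ((Fr q).cx.eq_of_add (ep_eq_zero (D := D) ?_))⟩
  · simpa [dQ_apply] using hy
  · have := congrArg Prod.fst h0
    rw [dQ_apply, ← hy, dt_ep hA] at this
    simpa [dQ_apply] using this

lemma π_qis : Cx.Qis (Q hA l hκ).cx (Fr q).cx (π hA l hκ) := by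
  have H := π_hom hA l hκ
  have lf : ∀ {n w}, w ∈ (Fr q).gr n → ∃ v ∈ (Q hA l hκ).gr n, π hA l hκ v = w := fun hw =>
    let ⟨x, h1, h2⟩ := pr_surj (D := D) hA hw
    ⟨(x, 0), ⟨h1, zero_mem _⟩, h2⟩
  refine ⟨H.isMap, fun n w hw h0 => ?_, fun n z hz h0 ⟨w, hw, e⟩ => ?_⟩
  · obtain ⟨v, hv, rfl⟩ := lf hw
    obtain ⟨u, hu, h1, h2⟩ := ker_bd hA l hκ ((Q hA l hκ).d_mem hv) ((H.comm v).symm.trans h0)
      ((Q hA l hκ).d_d v)
    refine ⟨v + u, add_mem hv ((Q hA l hκ).mem_cast hu (by ring)), ?_, ?_⟩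
    · exact (map_add _ _ _).trans ((congrArg _ h2).trans ((Q hA l hκ).two _))
    · rw [map_add, h1, add_zero, (Fr q).two]; exact Cx.Bd.zero n
  · obtain ⟨v, hv, rfl⟩ := lf hw
    have hb : (Q hA l hκ).cx.Bd n ((Q hA l hκ).d v) := ⟨v, hv, rfl⟩
    obtain ⟨u, hu, -, h2⟩ := ker_bd hA l hκ (add_mem hz hb.mem)
      (by rw [map_add, ← H.comm, ← e]; exact (Fr q).two _)
      (by rw [map_add, (Q hA l hκ).d_d, add_zero]; exact h0)
    exact Cx.Bd.of_add ⟨u, hu, h2⟩ hb

/-- The datum. -/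
def ks : KS q D κ where
  Q := Q hA l hκ
  π := π hA l hκ
  h := AddMonoidHom.snd _ _
  σ c := (AddMonoidHom.inr _ _).comp (DistribSMul.toAddMonoidHom _ (D c))
  π_hom := π_hom hA l hκ
  π_qis := π_qis hA l hκ
  h_lin := ⟨fun _ _ => rfl, fun _ _ => rfl⟩
  h_mem _ _ h := h.2
  d_h v := by
    change _ = lift q (Fr q) κ (pr D q v.1) + (Fr q).d v.2 + lift q (Fr q) κ (pr D q v.1)
    rw [add_right_comm, (Fr q).two, zero_add]; rfl
  σ_lin c := ⟨fun b v => Prod.ext (smul_zero b).symm (smul_comm (D c) b v),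
    fun b v => Prod.ext (smul_zero (op b)).symm (smul_comm (D c) (op b) v)⟩
  σ_mem c n v h := ⟨zero_mem _, (Fr q).mem_cast (Bimod.smul_mem (D c) h) (by ring)⟩
  π_σ _ _ := map_zero (pr D q)
  h_σ _ _ := rfl
  d_σ c v := by
    refine Prod.ext ?_ ?_
    · change dt l 0 + ep D q (D c • pr D q v.1) + 0 =
        Et.L A D (algebraMap K A.B c) • v.1 + Et.R A D (op (algebraMap K A.B c)) • v.1
      rw [Et.R_alg, add_smul, ← add_assoc, two, eps_smul, AlgHom.commutes, map_zero, add_zero]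
      rfl
    · change lift q (Fr q) κ (pr D q 0) + (Fr q).d (D c • π hA l hκ v) +
        D c • π hA l hκ ((Q hA l hκ).d v) = algebraMap K A.B c • v.2 + algebraMap K A.Bᵐᵒᵖ c • v.2
      rw [map_zero, map_zero, zero_add, (Fr q).d_smul, (π_hom hA l hκ).comm, (Fr q).two,
        algebraMap_smul, algebraMap_smul, (Fr q).two]

end Ks

/-- Row KS. -/
theorem ks : KsStmt := fun _ _ _ _ _ hA _ _ _ hκ l => ⟨Ks.closed hA l, ⟨Ks.ks hA l hκ⟩⟩

end FMD
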