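import Pool.Agent.MP_0e6a9f_ag.H32.GeoSpec

/-! A tower is a smooth multiprojective variety. -/

set_option backward.isDefEq.respectTransparency false
set_option linter.unusedSectionVars false

open FMD FMD.DG MvPolynomial

noncomputable section
namespace FMX

variable {K : Type} [Field K]

lemma PLAt.nice {R : Type} [CommRing R] [Algebra K R] {y y' a a' : R} {N N' : ℕ} (h : PLAt K y)
    (h1 : y' ^ N = y * a) (h2 : y ^ N' = y' * a') : Nice K (Localization.Away y') := by
  obtain ⟨T, _, _, ψ, τ, _, f, hψ, hu, hs, hf, hs'⟩ := h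
  have hT : Nice K T := by
    let := f.toAlgebra
    have : IsScalarTower K (MvPolynomial τ K) T := .of_algebraMap_eq fun c => (f.commutes c).symm
    have : IsLocalization ((IsUnit.submonoid T).comap f) T :=
      ⟨fun w => w.2, fun t => let ⟨p, w, h1, h2⟩ := hs' t; ⟨(p, ⟨w, h1⟩), h2⟩,
        fun e => ⟨1, by rw [hf e]⟩⟩
    exact (Nice.field.mvPolynomial τ).localization ((IsUnit.submonoid T).comap f) T
  let := ψ.toAlgebra
  have : IsScalarTower K R T := .of_algebraMap_eq fun c => (ψ.commutes c).symm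
  have : IsLocalization.Away y' T := by
    refine IsLocalization.Away.mk _ ?_ (fun t => ?_) fun p q e => ⟨0, by rw [hψ e]⟩
    · have := hu.pow N'
      rw [← map_pow, h2, map_mul] at this
      exact isUnit_of_mul_isUnit_left this
    · obtain ⟨k, r, hr⟩ := hs t
      refine ⟨N * k, r * a ^ k, ?_⟩
      change t * ψ y' ^ (N * k) = ψ (r * a ^ k)
      rw [pow_mul, ← map_pow ψ y', h1, map_mul, map_mul, mul_pow, ← mul_assoc, hr, map_pow]
  exact hT.equiv ((IsLocalization.algEquiv (.powers y') T _).restrictScalars K)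

namespace Tower
variable (T : Tower K)

/-- A monomial in the block elements. -/
def mon (m : T.Y → ℕ) : T.R := ∏ v, T.y v ^ m v

/-- The degree of a monomial. -/
def wt (m : T.Y → ℕ) : T.G := ∑ v, m v • T.deg v

lemma mon_mem (m : T.Y → ℕ) : T.mon m ∈ T.A (T.wt m) :=
  SetLike.prod_mem_graded _ _ _ fun v _ => SetLike.pow_mem_graded _ (T.mem v)

lemma mon_add (a b : T.Y → ℕ) : T.mon (a + b) = T.mon a * T.mon b := by
  simp [mon, pow_add, Finset.prod_mul_distrib]

lemma wt_add (a b : T.Y → ℕ) : T.wt (a + b) = T.wt a + T.wt b := by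
  simp [wt, add_smul, Finset.sum_add_distrib]

lemma mon_smul (k : ℕ) (a : T.Y → ℕ) : T.mon (k • a) = T.mon a ^ k := by
  simp [mon, ← Finset.prod_pow, ← pow_mul, mul_comm]

lemma wt_smul (k : ℕ) (a : T.Y → ℕ) : T.wt (k • a) = k • T.wt a := by
  simp only [wt, Finset.smul_sum, Pi.smul_apply, smul_eq_mul, mul_smul]

lemma mon_sum {J : Type} [Fintype J] (a : J → T.Y → ℕ) : T.mon (∑ j, a j) = ∏ j, T.mon (a j) := by
  simp only [mon, Finset.sum_apply, ← Finset.prod_pow_eq_pow_sum]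
  exact Finset.prod_comm

lemma wt_sum {J : Type} [Fintype J] (a : J → T.Y → ℕ) : T.wt (∑ j, a j) = ∑ j, T.wt (a j) := by
  simp only [wt, Finset.sum_apply, Finset.sum_smul]
  exact Finset.sum_comm

open Classical in
/-- The exponent of one block element. -/
def ex (v : T.Y) : T.Y → ℕ := Pi.single v 1

lemma ex_ne {u v : T.Y} : T.ex v u ≠ 0 ↔ v = u := by
  by_cases h : v = u <;> simp [ex, h]

lemma mon_ex (v : T.Y) : T.mon (T.ex v) = T.y v := by
  rw [mon, Finset.prod_eq_single v (fun u _ hu => by simp [ex, hu]) (by simp)]; simp [ex]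

lemma wt_ex (v : T.Y) : T.wt (T.ex v) = T.deg v := by
  rw [wt, Finset.sum_eq_single v (fun u _ hu => by simp [ex, hu]) (by simp)]; simp [ex]

lemma wt_step (v : T.Y) (m : T.ι → T.Y → ℕ) (h : ∀ j, T.n v j ≠ 0 → T.wt (m j) = Pi.single j 1) :
    T.wt (T.ex v + ∑ j, T.n v j • m j) = Pi.single (T.blk v) 1 := by
  have e (j) : T.wt (T.n v j • m j) = Pi.single j (T.n v j : ℤ) := by
    by_cases h0 : T.n v j = 0
    · simp [h0, wt]
    · rw [wt_smul, h j h0, ← Pi.single_smul']; simp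
  rw [wt_add, wt_sum, wt_ex, Finset.sum_congr rfl fun j _ => e j, Finset.univ_sum_single, deg,
    sub_add_cancel]

/-- The variables: monomials whose degree is a basis vector. -/
def V : Type := {p : T.ι × (T.Y → ℕ) // T.wt p.2 = Pi.single p.1 1}

lemma finite_V (H : T.OK) : Finite T.V := by
  classical
  let M : ℕ := ∑ v, ∑ j, T.n v j + 1
  let w : T.G →+ ℤ := ∑ j, ((M : ℤ) ^ T.ht j) • Pi.evalAddMonoidHom (fun _ => ℤ) j
  have hw (g) : w g = ∑ j, (M : ℤ) ^ T.ht j * g j := by simp [w]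
  have w1 (i) : w (Pi.single i 1) = (M ^ T.ht i : ℕ) := by
    rw [hw, Finset.sum_eq_single i (fun j _ hj => by simp [hj]) (by simp)]; simp
  have hM : 0 < M := Nat.succ_pos _
  have pos (v) : 1 ≤ w (T.deg v) := by
    have h1 : M * ∑ j, M ^ T.ht j * T.n v j ≤ (∑ j, T.n v j) * M ^ T.ht (T.blk v) := by
      rw [Finset.mul_sum, Finset.sum_mul]
      refine Finset.sum_le_sum fun j _ => ?_
      by_cases h0 : T.n v j = 0
      · simp [h0]
      · rw [← mul_assoc, ← pow_succ', mul_comm]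
        exact Nat.mul_le_mul_left _ (Nat.pow_le_pow_right hM (H.hn v j h0))
    have h2 : ∑ j, T.n v j < M := Nat.lt_succ_of_le
      (Finset.single_le_sum (f := fun v => ∑ j, T.n v j) (fun _ _ => Nat.zero_le _) (Finset.mem_univ v))
    have h3 := Nat.lt_of_mul_lt_mul_left
      (h1.trans_lt (Nat.mul_lt_mul_of_pos_right h2 (Nat.pow_pos hM)))
    rw [deg, map_sub, w1, hw]
    have : ((∑ j, M ^ T.ht j * T.n v j : ℕ) : ℤ) < (M ^ T.ht (T.blk v) : ℕ) := by exact_mod_cast h3
    push_cast at this ⊢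
    omega
  refine Set.Finite.to_subtype (((Set.finite_univ (α := T.ι)).prod
    (Set.finite_Iic fun _ : T.Y => ∑ i, M ^ T.ht i)).subset fun p hp => ⟨trivial, fun v => ?_⟩)
  have e : ∑ u, (p.2 u : ℤ) * w (T.deg u) = (M ^ T.ht p.1 : ℕ) := by
    rw [← w1, ← show T.wt p.2 = _ from hp, wt, map_sum]
    exact Finset.sum_congr rfl fun u _ => by rw [map_nsmul, nsmul_eq_mul]
  have h1 := Finset.single_le_sum (f := fun u => (p.2 u : ℤ) * w (T.deg u))
    (fun u _ => mul_nonneg (by simp) (by linarith [pos u])) (Finset.mem_univ v)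
  have h2 : (p.2 v : ℤ) ≤ p.2 v * w (T.deg v) := le_mul_of_one_le_right (by simp) (pos v)
  have h3 : p.2 v ≤ M ^ T.ht p.1 := by exact_mod_cast h2.trans (h1.trans e.le)
  exact h3.trans (Finset.single_le_sum (f := fun i => M ^ T.ht i) (fun _ _ => Nat.zero_le _)
    (Finset.mem_univ _))

/-- The block of a variable. -/
def vb (p : T.V) : T.ι := p.1.1

/-- The map from the polynomial ring. -/
def phi : GH (grading K T.vb) T.A where
  φ := aeval fun p => T.mon p.1.2
  mem {g r} hr := by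
    classical
    rw [← r.support_sum_monomial_coeff, map_sum]
    refine sum_mem fun α hα => ?_
    rw [← hr (mem_support_iff.1 hα), aeval_monomial, ← Algebra.smul_def, Finsupp.weight_apply]
    exact Submodule.smul_mem _ _ (SetLike.prod_mem_graded _ _ _ fun p _ =>
      SetLike.pow_mem_graded _ (p.2 ▸ T.mon_mem p.1.2))

/-- The kernel. -/
def kerI (H : T.OK) : HomogeneousIdeal (grading K T.vb) :=
  ⟨RingHom.ker T.phi.φ, fun g r hr => by
    classical
    by_cases hg : g ∈ (DirectSum.decompose (grading K T.vb) r).support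
    · exact H.ind _ (fun g => T.phi.φ (DirectSum.decompose (grading K T.vb) r g))
        (fun g _ => T.phi.mem (SetLike.coe_mem _))
        (by rw [← map_sum, DirectSum.sum_support_decompose]; exact hr) g hg
    · rw [DFinsupp.notMem_support_iff.1 hg]; exact zero_mem _⟩

lemma hon (H : T.OK) [CharP K 2] : (ring T.A).Hon where
  span r := by
    induction H.span r using Submodule.iSup_induction' with
    | mem g r hr => exact AddSubgroup.mem_iSup_of_mem (g, (0 : ℤ)) hr
    | zero => exact zero_mem _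
    | add r s _ _ hr hs => exact add_mem hr hs
  ind s v hv h0 p hp := by
    classical
    by_cases h : p.2 = 0
    swap
    · exact eq_zero_of_mem_ring (hv p hp) h
    have e (q) (hq : q ∈ s.filter fun q => q.2 = 0) : (q.1, (0 : ℤ)) = q :=
      Prod.ext rfl (Finset.mem_filter.1 hq).2.symm
    have := H.ind ((s.filter fun q => q.2 = 0).image Prod.fst) (fun g => v (g, 0)) (fun g hg => by
      obtain ⟨q, hq, rfl⟩ := Finset.mem_image.1 hg
      exact hv (q.1, 0) ((e q hq).symm ▸ (Finset.mem_filter.1 hq).1)) (by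
      rw [Finset.sum_image fun q hq q' hq' h => by rw [← e q hq, ← e q' hq', h],
        Finset.sum_congr rfl fun q hq => congrArg v (e q hq), Finset.sum_filter_of_ne, h0]
      exact fun q hq hv' => by_contra fun h => hv' (eq_zero_of_mem_ring (hv q hq) h)) p.1
      (Finset.mem_image_of_mem _ (Finset.mem_filter.2 ⟨hp, h⟩))
    rwa [e p (Finset.mem_filter.2 ⟨hp, h⟩)] at this

/-- A power of `z` is `x` times a monomial. -/
def Dv (x z : HE T.A) : Prop :=
  ∃ (N : ℕ) (m : T.Y → ℕ), z.x ^ N = x.x * T.mon m ∧ N • z.deg = x.deg + T.wt m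

variable {T}

lemma dv_of {x z : HE T.A} {a b : T.Y → ℕ} (h1 : x.x = T.mon a) (h2 : x.deg = T.wt a)
    (h3 : z.x = T.mon b) (h4 : z.deg = T.wt b) (h : ∀ v, a v ≠ 0 → b v ≠ 0) : T.Dv x z := by
  have e : (∑ v, a v) • b = a + ((∑ v, a v) • b - a) := (add_tsub_cancel_of_le fun v => by
    by_cases h0 : a v = 0
    · simp [h0]
    · exact (Finset.single_le_sum (fun _ _ => Nat.zero_le _) (Finset.mem_univ v)).trans
        (Nat.le_mul_of_pos_right _ (Nat.pos_of_ne_zero (h v h0)))).symm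
  exact ⟨∑ v, a v, _, by rw [h1, h3, ← mon_smul, ← mon_add, ← e],
    by rw [h2, h4, ← wt_smul, ← wt_add, ← e]⟩

lemma Dv.tors [CharP K 2] {x z : HE T.A} (h : T.Dv x z) {M : DG T.A} (h' : Tors x M) :
    Tors z M := fun g _ n u hu h0 => by
  obtain ⟨N, m, h1, h2⟩ := h
  obtain ⟨k, hk⟩ := h' g trivial n u hu h0
  refine ⟨N * k, bd_cast (bd_smul (T.mon_mem (k • m)) hk) ?_ ?_⟩
  · rw [mul_nsmul, h2, wt_smul, nsmul_add]; abel
  · rw [smul_smul, pow_mul, h1, mon_smul, mul_pow, mul_comm]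

lemma ch_x (d : T.Chart) : (T.ch d).x = T.mon (∑ i, T.ex (d.1 i)) := by
  simp [mon_sum, mon_ex, ch]

lemma ch_deg (d : T.Chart) : (T.ch d).deg = T.wt (∑ i, T.ex (d.1 i)) := by
  simp [wt_sum, wt_ex, ch]

variable (T) in
/-- A chart of the product of projective spaces. -/
abbrev PC : Type := {c : T.ι → T.V // ∀ j, T.vb (c j) = j}

lemma PC.wt (c : T.PC) (j : T.ι) : T.wt (c.1 j).1.2 = Pi.single j 1 :=
  (c.1 j).2.trans (congrArg (Pi.single · 1) (c.2 j))

lemma PC.mem (c : T.PC) (j : T.ι) : X (c.1 j) ∈ grading K T.vb (Pi.single j 1) := by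
  have := isWeightedHomogeneous_X K (fun v => (Pi.single (T.vb v) 1 : T.G)) (c.1 j)
  rwa [c.2 j] at this

/-- The product of the variables of a chart. -/
def PC.he (c : T.PC) : HE (grading K T.vb) :=
  ⟨∏ j, X (c.1 j), ∑ j, Pi.single j 1, SetLike.prod_mem_graded _ _ _ fun j _ => c.mem j⟩

lemma PC.x (c : T.PC) : (T.phi.he c.he).x = T.mon (∑ j, (c.1 j).1.2) := by
  simp [mon_sum, GH.he, PC.he, phi]

lemma PC.deg (c : T.PC) : (T.phi.he c.he).deg = T.wt (∑ j, (c.1 j).1.2) := by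
  simp [wt_sum, GH.he, PC.he, c.wt]

lemma PC.dv (c : T.PC) (d : T.Chart) (h : ∀ i, (c.1 i).1.2 (d.1 i) ≠ 0) :
    T.Dv (T.ch d) (T.phi.he c.he) := by
  refine dv_of (ch_x d) (ch_deg d) c.x c.deg fun v hv => ?_
  rw [Finset.sum_apply] at hv ⊢
  obtain ⟨i, -, hi⟩ := Finset.exists_ne_zero_of_sum_ne_zero hv
  exact fun e => h i (T.ex_ne.1 hi ▸ Finset.sum_eq_zero_iff.1 e i (Finset.mem_univ i))

lemma PC.exists_ch (c : T.PC) : ∃ d, T.Dv (T.ch d) (T.phi.he c.he) := by
  have key (i : T.ι) : ∃ v, T.blk v = i ∧ (c.1 i).1.2 v ≠ 0 := by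
    by_contra hc
    push Not at hc
    have e := congrFun (c.wt i) i
    have : ∑ v, ((c.1 i).1.2 v • T.deg v) i ≤ 0 := Finset.sum_nonpos fun v _ => by
      by_cases h : T.blk v = i
      · simp [hc v h]
      · simp only [Tower.deg, Pi.smul_apply, Pi.sub_apply, Pi.single_eq_of_ne' h]
        exact nsmul_nonpos (by simp) _
    rw [Tower.wt, Finset.sum_apply, Pi.single_eq_same] at e
    omega
  choose d h1 h2 using key
  exact ⟨⟨d, h1⟩, c.dv _ h2⟩

lemma exists_pc (H : T.OK) (d : T.Chart) :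
    ∃ c : T.PC, T.Dv (T.ch d) (T.phi.he c.he) ∧ T.Dv (T.phi.he c.he) (T.ch d) := by
  have key (i : T.ι) :
      ∃ m, T.wt m = Pi.single i 1 ∧ m (d.1 i) ≠ 0 ∧ ∀ v, m v ≠ 0 → ∃ j, d.1 j = v := by
    induction h : T.ht i using Nat.strong_induction_on generalizing i with | _ k ih =>
    have key (j : T.ι) : ∃ m, (T.n (d.1 i) j ≠ 0 → T.wt m = Pi.single j 1) ∧
        ∀ v, m v ≠ 0 → ∃ j, d.1 j = v := by
      by_cases h0 : T.n (d.1 i) j = 0
      · exact ⟨0, fun h => absurd h0 h, fun _ h => absurd rfl h⟩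
      · obtain ⟨m, h1, -, h2⟩ := ih _ (by rw [← h, ← d.2 i]; exact H.hn _ _ h0) j rfl
        exact ⟨m, fun _ => h1, h2⟩
    choose m h1 h2 using key
    refine ⟨_, (T.wt_step _ m h1).trans (by rw [d.2 i]), fun e => T.ex_ne.2 rfl
      (Nat.eq_zero_of_add_eq_zero_right e), fun v hv => ?_⟩
    by_cases h0 : T.ex (d.1 i) v = 0
    · rw [Pi.add_apply, h0, zero_add, Finset.sum_apply] at hv
      obtain ⟨j, -, hj⟩ := Finset.exists_ne_zero_of_sum_ne_zero hv
      exact h2 j v (right_ne_zero_of_mul hj)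
    · exact ⟨i, T.ex_ne.1 h0⟩
  choose m h1 h2 h3 using key
  let c : T.PC := ⟨fun i => ⟨(i, m i), h1 i⟩, fun _ => rfl⟩
  refine ⟨c, c.dv d h2, dv_of c.x c.deg (ch_x d) (ch_deg d) fun v hv => ?_⟩
  rw [Finset.sum_apply] at hv ⊢
  obtain ⟨i, -, hi⟩ := Finset.exists_ne_zero_of_sum_ne_zero hv
  obtain ⟨j, rfl⟩ := h3 i v hi
  exact fun e => T.ex_ne.2 rfl (Finset.sum_eq_zero_iff.1 e j (Finset.mem_univ j))

/-- The elements that come from the polynomial ring on a chart. -/
def PC.B (c : T.PC) (g : T.G) : Submodule K T.R where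
  carrier := {r | ∃ k : ℕ, ∃ s ∈ grading K T.vb (k • c.he.deg + g),
    T.phi.φ c.he.x ^ k * r = T.phi.φ s}
  zero_mem' := ⟨0, 0, zero_mem _, by simp⟩
  add_mem' := by
    rintro a b ⟨k, s, h1, h2⟩ ⟨l, u, h3, h4⟩
    refine ⟨k + l, c.he.x ^ l * s + c.he.x ^ k * u, add_mem ?_ ?_, ?_⟩
    · convert SetLike.mul_mem_graded (c.he.pow_mem l) h1 using 2
      rw [add_nsmul]; abel
    · convert SetLike.mul_mem_graded (c.he.pow_mem k) h3 using 2
      rw [add_nsmul]; abel
    · simp only [map_add, map_mul, map_pow, ← h2, ← h4]; ring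
  smul_mem' a := by
    rintro r ⟨k, s, h1, h2⟩
    exact ⟨k, a • s, Submodule.smul_mem _ _ h1, by rw [map_smul, ← h2, mul_smul_comm]⟩

lemma PC.y_mul (c : T.PC) (v g) (r) (hr : r ∈ c.B g) : T.y v * r ∈ c.B (T.deg v + g) := by
  obtain ⟨k, s, h1, h2⟩ := hr
  let u : T.V := ⟨(T.blk v, _), T.wt_step v (fun j => (c.1 j).1.2) fun j _ => c.wt j⟩
  let N := ∑ j, T.n v j
  have hN (j) : T.n v j ≤ N := Finset.single_le_sum (fun _ _ => Nat.zero_le _) (Finset.mem_univ j)
  refine ⟨N + k, X u * (∏ j, X (c.1 j) ^ (N - T.n v j)) * s, ?_, ?_⟩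
  · convert SetLike.mul_mem_graded (SetLike.mul_mem_graded (isWeightedHomogeneous_X K _ u)
      (SetLike.prod_mem_graded _ _ _ fun j (_ : j ∈ Finset.univ) =>
        SetLike.pow_mem_graded (N - T.n v j) (c.mem j))) h1 using 2
    have : ∑ j, (N - T.n v j) • (Pi.single j 1 : T.G) = N • c.he.deg - fun j => (T.n v j : ℤ) := by
      funext i
      simp [PC.he, Pi.single_apply, hN]
    rw [this, add_nsmul, Tower.deg]
    change _ = Pi.single (T.blk v) 1 + _ + _
    abel
  · have e : T.phi.φ c.he.x ^ N = (∏ j, T.phi.φ (X (c.1 j)) ^ T.n v j) *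
        ∏ j, T.phi.φ (X (c.1 j)) ^ (N - T.n v j) := by
      simp only [PC.he, map_prod, ← Finset.prod_pow, ← Finset.prod_mul_distrib, ← pow_add,
        Nat.add_sub_cancel' (hN _)]
    have e' : T.phi.φ (X u) = T.y v * ∏ j, T.phi.φ (X (c.1 j)) ^ T.n v j := by
      simp only [phi, aeval_X, u, mon_add, mon_sum, mon_smul, mon_ex]
    simp only [map_mul, map_prod, map_pow]
    rw [pow_add, e, e', ← h2]
    ring

lemma PC.mon_mul (c : T.PC) (m : T.Y → ℕ) (g) (r) (hr : r ∈ c.B g) :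
    T.mon m * r ∈ c.B (T.wt m + g) := by
  induction h : ∑ v, m v generalizing m with
  | zero =>
    obtain rfl : m = 0 := funext fun v => Finset.sum_eq_zero_iff.1 h v (Finset.mem_univ v)
    simpa [mon, Tower.wt] using hr
  | succ k ih =>
    obtain ⟨v, -, hv⟩ := Finset.exists_ne_zero_of_sum_ne_zero (h.trans_ne k.succ_ne_zero)
    obtain ⟨m, rfl⟩ : ∃ m', m = T.ex v + m' := exists_add_of_le fun u => by
      by_cases e : v = u
      · subst e; simpa [ex] using Nat.one_le_iff_ne_zero.2 hv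
      · rw [not_not.1 (mt T.ex_ne.1 e)]; exact Nat.zero_le _
    rw [mon_add, wt_add, mon_ex, wt_ex, mul_assoc, add_assoc]
    refine c.y_mul v _ _ (ih m ?_)
    classical
    simp [Finset.sum_add_distrib, ex, Pi.single_apply] at h
    omega

lemma PC.surj (H : T.OK) (c : T.PC) (g) (r) (hr : r ∈ T.A g) : r ∈ c.B g := by
  obtain ⟨d, N, m, h1, h2⟩ := c.exists_ch
  obtain ⟨k, hk⟩ := H.gen c.B ⟨0, 1, by simpa using SetLike.one_mem_graded (grading K T.vb), by simp⟩
    c.y_mul d g r hr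
  obtain ⟨l, s, h3, h4⟩ := c.mon_mul (k • m) _ _ hk
  refine ⟨l + N * k, s, ?_, ?_⟩
  · convert h3 using 2
    rw [add_nsmul, mul_nsmul, show N • c.he.deg = _ from h2, wt_smul, nsmul_add]; abel
  · rw [← h4, pow_add, pow_mul, show T.phi.φ c.he.x ^ N = _ from h1, mon_smul]; ring

end Tower

open Tower in
/-- A tower is a smooth multiprojective variety. -/
theorem tower (K : Type) [Field K] [CharP K 2] : TowerStmt K := by
  intro T H
  have := T.finite_V H
  let := Fintype.ofFinite T.V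
  let X : MP K := ⟨T.ι, T.V, T.vb, T.kerI H⟩
  have := H.dom
  choose c h1 h2 using exists_pc H
  obtain ⟨S, hS, hr⟩ := H.nice
  obtain ⟨π, d₀, hπ⟩ := H.pt
  let := Fintype.ofFinite S
  have key := coxVar (X := X) T.phi.φ rfl (fun j : S => c j) (fun c r => by
      induction H.span r using Submodule.iSup_induction' with
      | mem g r hr => exact (PC.surj H c g r hr).imp fun k ⟨s, _, h⟩ => ⟨s, h⟩
      | zero => exact ⟨0, 0, by simp⟩
      | add r s _ _ hr hs =>
        obtain ⟨k, u, h2⟩ := hr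
        obtain ⟨l, w, h4⟩ := hs
        refine ⟨k + l, X.x c ^ l * u + X.x c ^ k * w, ?_⟩
        simp only [map_add, map_mul, map_pow, ← h2, ← h4]; ring)
    (fun j => let ⟨_, _, e1, _⟩ := h1 j; let ⟨_, _, e2, _⟩ := h2 j; (hS _ j.2).nice e1 e2)
    (fun c' => by
      obtain ⟨d, N, m, e, -⟩ := PC.exists_ch c'
      refine Ideal.mem_radical_of_pow_mem (m := N) ?_
      rw [show T.phi.φ (X.x c') ^ N = _ from e]
      refine Ideal.mul_mem_right _ _ (Ideal.radical_le_radical_iff.2 (Ideal.span_le.2 ?_) (hr d))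
      rintro _ ⟨d, hd, rfl⟩
      obtain ⟨N, m, e, -⟩ := h2 d
      exact ⟨N, e ▸ Ideal.mul_mem_right _ _ (Ideal.subset_span ⟨⟨d, hd⟩, rfl⟩)⟩)
    π (c d₀) fun e => by
      obtain ⟨N, m, e', -⟩ := h2 d₀
      have := congrArg π e'
      rw [map_mul, map_pow, show π (T.phi.he (c d₀).he).x = 0 from e, zero_mul] at this
      exact hπ (eq_zero_of_pow_eq_zero this)
  refine ⟨T.V, inferInstance, T.vb, T.kerI H, T.phi, lst PC.he, key.1, key.2,
    fun c => ⟨_, mem_lst.2 ⟨c, rfl⟩, rfl⟩, fun y hy => ?_, ⟨fun _ h => h, fun _ _ r h => ⟨0, ?_⟩,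
      fun y hy g r hr => ?_, (T.hon H).span⟩, T.hon H, fun M => ⟨fun h y hy => ?_, fun h y hy => ?_⟩⟩
  · obtain ⟨c, rfl⟩ := mem_lst.1 hy
    exact ⟨c, rfl⟩
  · rwa [pow_zero, one_mul]
  · obtain ⟨c, rfl⟩ := mem_lst.1 hy
    exact PC.surj H c g r hr
  · obtain ⟨d, rfl⟩ := mem_lst.1 hy
    exact (h2 d).tors (h _ (List.mem_map_of_mem (mem_lst.2 ⟨_, rfl⟩)))
  · obtain ⟨y', hy', rfl⟩ := List.mem_map.1 hy
    obtain ⟨c, rfl⟩ := mem_lst.1 hy'
    obtain ⟨d, hd⟩ := c.exists_ch
    exact hd.tors (h _ (mem_lst.2 ⟨d, rfl⟩))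

end FMX
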